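import Mathlib

/-!
Subgroups of every index with infinite abelianization.
-/

set_option autoImplicit false

namespace Pool.Agent.Y830.HM

/-- a group with an element of infinite order under a homomorphism to the integers has infinite
abelianization -/
lemma infinite_abelianization {H : Type*} [Group H] (g : H →* Multiplicative ℤ) (y : H)
    (hy : g y ≠ 1) : Infinite (Abelianization H) := by
  by_contra hcon
  have hfin : Finite (Abelianization H) := not_infinite_iff_finite.1 hcon
  have h1 : IsOfFinOrder (Abelianization.of y) := isOfFinOrder_of_finite _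
  have h2 : IsOfFinOrder (Abelianization.lift g (Abelianization.of y)) :=
    MonoidHom.isOfFinOrder _ h1
  rw [Abelianization.lift_apply_of] at h2
  obtain ⟨n, hn, h3⟩ := isOfFinOrder_iff_pow_eq_one.1 h2
  apply hy
  have h4 : (n : ℤ) * Multiplicative.toAdd (g y) = 0 := by
    have h5 := congrArg Multiplicative.toAdd h3
    rw [toAdd_pow, toAdd_one, nsmul_eq_mul] at h5
    exact h5
  rcases mul_eq_zero.1 h4 with h5 | h5
  · have : n = 0 := by exact_mod_cast h5
    omega
  · apply Multiplicative.toAdd.injective
    rw [h5, toAdd_one]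

/-- a homomorphism to the integers with non-trivial image can be made surjective -/
lemma exists_surj {H : Type*} [Group H] (f : H →* Multiplicative ℤ) (y : H) (hy : f y ≠ 1) :
    ∃ g : H →* Multiplicative ℤ, Function.Surjective g := by
  obtain ⟨a, ha⟩ := Int.subgroup_cyclic (MonoidHom.toAdditiveLeft f).range
  have hdvd : ∀ x : H, a ∣ Multiplicative.toAdd (f x) := by
    intro x
    have h1 : Multiplicative.toAdd (f x) ∈ (MonoidHom.toAdditiveLeft f).range :=
      ⟨Additive.ofMul x, rfl⟩
    rw [ha, AddSubgroup.mem_closure_singleton] at h1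
    obtain ⟨n, hn⟩ := h1
    exact ⟨n, by rw [← hn, smul_eq_mul, mul_comm]⟩
  have ha0 : a ≠ 0 := by
    rintro rfl
    apply hy
    apply Multiplicative.toAdd.injective
    rw [toAdd_one]
    exact zero_dvd_iff.1 (hdvd y)
  refine ⟨{ toFun := fun x => Multiplicative.ofAdd (Multiplicative.toAdd (f x) / a)
            map_one' := by simp
            map_mul' := fun x z => by
              rw [map_mul, toAdd_mul, Int.add_ediv_of_dvd_left (hdvd x), ofAdd_add] }, ?_⟩
  have ha1 : a ∈ (MonoidHom.toAdditiveLeft f).range := by
    rw [ha]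
    exact AddSubgroup.subset_closure rfl
  obtain ⟨x, hx⟩ := ha1
  have hx' : Multiplicative.toAdd (f (Additive.toMul x)) = a := hx
  intro m
  refine ⟨(Additive.toMul x) ^ (Multiplicative.toAdd m), ?_⟩
  show Multiplicative.ofAdd (Multiplicative.toAdd (f ((Additive.toMul x) ^ _)) / a) = m
  rw [map_zpow, toAdd_zpow, hx', smul_eq_mul, Int.mul_ediv_cancel _ ha0, ofAdd_toAdd]

/-- finite index subgroups of every index -/
lemma exists_index {G : Type*} [Group G] (H : Subgroup G) (f : H →* Multiplicative ℤ) (y : H)
    (hy : f y ≠ 1) (r : ℕ) (hr : 1 ≤ r) :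
    ∃ K : Subgroup G, K ≤ H ∧ K.index = H.index * r ∧ Infinite (Abelianization K) := by
  obtain ⟨g, hg⟩ := exists_surj f y hy
  obtain ⟨gk, hgk⟩ : ∃ gk : H →* Multiplicative (ZMod r),
      gk = (AddMonoidHom.toMultiplicative (Int.castAddHom (ZMod r))).comp g := ⟨_, rfl⟩
  have hsurj : Function.Surjective gk := by
    intro m
    obtain ⟨i, hi⟩ := ZMod.intCast_surjective (Multiplicative.toAdd m)
    obtain ⟨w, hw⟩ := hg (Multiplicative.ofAdd i)
    refine ⟨w, ?_⟩
    rw [hgk, MonoidHom.comp_apply, hw]
    apply Multiplicative.toAdd.injective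
    simpa using hi
  have hle : gk.ker.map H.subtype ≤ H := by
    rintro _ ⟨w, _, rfl⟩
    exact w.2
  refine ⟨gk.ker.map H.subtype, hle, ?_, ?_⟩
  · have h1 := Subgroup.relIndex_mul_index hle
    have h2 : (gk.ker.map H.subtype).relIndex H = r := by
      have h3 : (gk.ker.map H.subtype).subgroupOf H = gk.ker := by
        ext w
        rw [Subgroup.mem_subgroupOf]
        constructor
        · rintro ⟨z, hz, h⟩
          have : z = w := Subtype.ext h
          rw [← this]; exact hz
        · intro h
          exact ⟨w, h, rfl⟩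
      rw [Subgroup.relIndex, h3, Subgroup.index_ker, MonoidHom.range_eq_top.2 hsurj,
        Subgroup.card_top]
      exact (Nat.card_congr Multiplicative.toAdd).trans (Nat.card_zmod r)
    rw [h2] at h1
    rw [← h1, mul_comm]
  · obtain ⟨x, hx⟩ := hg (Multiplicative.ofAdd (r : ℤ))
    have hxk : x ∈ gk.ker := by
      rw [MonoidHom.mem_ker, hgk, MonoidHom.comp_apply, hx]
      apply Multiplicative.toAdd.injective
      simp
    have hmem : (x : G) ∈ gk.ker.map H.subtype := ⟨x, hxk, rfl⟩
    refine infinite_abelianization (g.comp (Subgroup.inclusion hle)) ⟨(x : G), hmem⟩ ?_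
    have e : (g.comp (Subgroup.inclusion hle)) ⟨(x : G), hmem⟩ = g x := rfl
    rw [e, hx]
    intro h
    have := congrArg Multiplicative.toAdd h
    rw [toAdd_ofAdd, toAdd_one] at this
    have : r = 0 := by exact_mod_cast this
    omega

end Pool.Agent.Y830.HM
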