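import Pool.Agent.Y830.HM.Cyc
import Pool.Agent.W575.Hyp6.Disc
import Pool.Agent.W438.Hyp.Fin

/-!
Hyperbolic 6-manifolds with infinite first homology: all volumes, and all even multiples of the
minimal volume by orientable manifolds.
-/

set_option autoImplicit false

namespace Pool.Agent.Y830.HM

open Pool.Agent.W575.Hyp6 MeasureTheory

/-- `Γ` is a group of isometries of hyperbolic 6-space, acting freely and properly
discontinuously, torsion-free, with covolume `k · 8π³/15` and with infinite abelianization; that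
is, `H⁶/Γ` is a hyperbolic 6-manifold with Euler characteristic `-k` and infinite first
homology. -/
def IsManifoldGroup (Γ : Subgroup PosLor) (k : ℕ) : Prop :=
  (∀ γ ∈ Γ, IsOfFinOrder γ → γ = 1) ∧
  (∀ γ ∈ Γ, ∀ x : H6, γ • x = x → γ = 1) ∧
  (∀ x : H6, ∀ C : ℝ, {γ : PosLor | γ ∈ Γ ∧ -B x.1 (γ • x).1 ≤ C}.Finite) ∧
  (∃ D : Set H6, IsFundamentalDomain Γ D hypVol ∧
    hypVol D = ENNReal.ofReal (k * (8 * Real.pi ^ 3 / 15))) ∧
  Γ.index = 414720 * k ∧
  Infinite (Abelianization Γ)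

/-- `Γ` preserves the orientation of hyperbolic 6-space -/
def PreservesOrientation (Γ : Subgroup PosLor) : Prop := ∀ γ ∈ Γ, (γ.1.1).det = 1

theorem isManifoldGroup {Γ : Subgroup PosLor} {k : ℕ} (hk : 1 ≤ k) (hle : Γ ≤ Gam)
    (hidx : Γ.index = 414720 * k) (hab : Infinite (Abelianization Γ)) : IsManifoldGroup Γ k := by
  have hfree : ∀ γ ∈ Γ, ∀ x : H6, γ • x = x → γ = 1 :=
    fun γ hγ x h => Gam_free γ (hle hγ) x.1 x.2.1 (congrArg Subtype.val h)
  exact ⟨fun γ hγ h => Gam_torsion_free γ (hle hγ) h, hfree,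
    fun x C => (proper x C).subset (fun γ h => h.2),
    Pool.Agent.W438.Hyp.exists_fd_min Γ k hk hidx hfree, hidx, hab⟩

/-- a power of the word `wd` in a subgroup of finite index has nonzero image -/
theorem exists_elt (H : Subgroup PosLor) (hH : H ≤ Gam) (hi : H.index ≠ 0) :
    ∃ y : H, (nHom.comp (Subgroup.inclusion hH)) y ≠ 1 := by
  obtain ⟨n, hn, -, hmem⟩ := Subgroup.exists_pow_mem_of_index_ne_zero hi wd
  refine ⟨⟨wd ^ n, hmem⟩, ?_⟩
  have e : (nHom.comp (Subgroup.inclusion hH)) ⟨wd ^ n, hmem⟩ = nHom (⟨wd, wd_mem⟩ ^ n) := rfl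
  rw [e, map_pow, nHom_wd]
  intro h
  have h1 := congrArg Multiplicative.toAdd h
  rw [toAdd_pow, toAdd_ofAdd, toAdd_one, nsmul_eq_mul, mul_one] at h1
  have : n = 0 := by exact_mod_cast h1
  omega

theorem exists_sub (H : Subgroup PosLor) (hH : H ≤ Gam) (hi : H.index ≠ 0) (r : ℕ) (hr : 1 ≤ r) :
    ∃ K : Subgroup PosLor, K ≤ H ∧ K.index = H.index * r ∧ Infinite (Abelianization K) := by
  obtain ⟨y, hy⟩ := exists_elt H hH hi
  exact exists_index H (nHom.comp (Subgroup.inclusion hH)) y hy r hr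

/-- the determinant -/
noncomputable def detG : PosLor →* ℤˣ :=
  (Matrix.GeneralLinearGroup.det (n := Fin 7) (R := ℤ)).comp PosLor.subtype

theorem main_cover (Γ : Subgroup PosLor) (hle : Γ ≤ Gam) (hi : Γ.index ≠ 0) :
    ∃ k : ℕ, 1 ≤ k ∧ IsManifoldGroup Γ k ∧
      ∀ l : ℕ, 1 ≤ l → ∃ Γ' : Subgroup PosLor, Γ' ≤ Γ ∧ IsManifoldGroup Γ' (k * l) := by
  have hidx : Γ.index = 414720 * Γ.relIndex Gam := by
    rw [← Subgroup.relIndex_mul_index hle, index_Gam, mul_comm]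
  have hk : 1 ≤ Γ.relIndex Gam := by
    rcases Nat.eq_zero_or_pos (Γ.relIndex Gam) with h | h
    · rw [h] at hidx
      exact absurd hidx hi
    · exact h
  obtain ⟨y, hy⟩ := exists_elt Γ hle hi
  refine ⟨Γ.relIndex Gam, hk, isManifoldGroup hk hle hidx (infinite_abelianization _ y hy), ?_⟩
  intro l hl
  obtain ⟨K, h1, h2, h3⟩ := exists_sub Γ hle hi l hl
  refine ⟨K, h1, isManifoldGroup (Nat.mul_le_mul hk hl) (h1.trans hle) ?_ h3⟩
  rw [h2, hidx, mul_assoc]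

theorem main_orientable (k : ℕ) (hk : 1 ≤ k) :
    ∃ Γ : Subgroup PosLor, Γ ≤ Gam ∧ IsManifoldGroup Γ (2 * k) ∧ PreservesOrientation Γ := by
  have hj : (detG.ker).relIndex Gam ∣ 2 := by
    refine (Subgroup.relIndex_dvd_index_of_normal _ _).trans ?_
    rw [Subgroup.index_ker]
    refine (Subgroup.card_subgroup_dvd_card _).trans ?_
    rw [Nat.card_eq_fintype_card, Fintype.card_units_int]
  have hle : Gam ⊓ detG.ker ≤ Gam := inf_le_left
  have hidx : (Gam ⊓ detG.ker).index = (detG.ker).relIndex Gam * 414720 := by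
    rw [← Subgroup.relIndex_mul_index hle, Subgroup.inf_relIndex_left, index_Gam]
  have hj0 : (detG.ker).relIndex Gam ≠ 0 := by
    rintro h
    rw [h] at hj
    omega
  obtain ⟨c, hc⟩ := hj
  have hc0 : 1 ≤ c := by
    rcases Nat.eq_zero_or_pos c with h | h
    · rw [h] at hc
      omega
    · exact h
  obtain ⟨K, h1, h2, h3⟩ := exists_sub (Gam ⊓ detG.ker) hle
    (by rw [hidx]; exact mul_ne_zero hj0 (by norm_num)) (c * k)
    (Nat.mul_le_mul hc0 hk)
  refine ⟨K, h1.trans hle, isManifoldGroup (by omega) (h1.trans hle) ?_ h3, ?_⟩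
  · rw [h2, hidx, hc]
    ring
  · intro γ hγ
    have h4 := (h1 hγ).2
    have h5 : detG γ = 1 := MonoidHom.mem_ker.1 h4
    have h6 : Matrix.GeneralLinearGroup.det (γ.1) = (1 : ℤˣ) := h5
    have h7 : ((Matrix.GeneralLinearGroup.det (γ.1) : ℤˣ) : ℤ) = 1 := by rw [h6]; rfl
    rw [Matrix.GeneralLinearGroup.val_det_apply] at h7
    exact h7

/-- the complete statement -/
theorem main : ∃ Γ₁ : Subgroup PosLor, IsManifoldGroup Γ₁ 1 ∧
    (∀ Γ : Subgroup PosLor, Γ ≤ Γ₁ → Γ.index ≠ 0 → ∃ k : ℕ, 1 ≤ k ∧ IsManifoldGroup Γ k ∧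
      ∀ l : ℕ, 1 ≤ l → ∃ Γ' : Subgroup PosLor, Γ' ≤ Γ ∧ IsManifoldGroup Γ' (k * l)) ∧
    (∀ k : ℕ, 1 ≤ k → ∃ Γ : Subgroup PosLor, Γ ≤ Γ₁ ∧ IsManifoldGroup Γ (2 * k) ∧
      PreservesOrientation Γ) :=
  ⟨Gam, isManifoldGroup le_rfl le_rfl (by rw [index_Gam]) infinite_ab, main_cover,
    main_orientable⟩

end Pool.Agent.Y830.HM
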